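import Pool.Agent.W622.ETC.Stm

/-!
Project ELT (helper622), part BRI: from quaternionic structures with `-1 = 1` in which symbols
extend to families of alternating forms.
-/

set_option autoImplicit false

namespace Pool.Agent.W349.ELT

open Pool.Agent.W622.ETC Pool.Agent.H315R3.ETC Module

section
variable {S : QData} [Module (ZMod 2) (Additive S.G)]

/-- the family of all bilinear forms vanishing where `q` does -/
def BRI_A (S : QData) [Module (ZMod 2) (Additive S.G)] : Fam (Additive S.G) where
  carrier := {ω | ∀ a b : Additive S.G, S.q a.toMul b.toMul = S.zero → ω a b = 0}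
  add_mem' := by
    intro ω η h1 h2 a b h
    rw [LinearMap.add_apply, LinearMap.add_apply, h1 a b h, h2 a b h, add_zero]
  zero_mem' := by intro a b _; rfl
  smul_mem' := by
    intro c ω h1 a b h
    rw [LinearMap.smul_apply, LinearMap.smul_apply, h1 a b h, smul_zero]

lemma BRI_memA {ω : Frm (Additive S.G)} : ω ∈ BRI_A S ↔
    ∀ a b : Additive S.G, S.q a.toMul b.toMul = S.zero → ω a b = 0 := Iff.rfl

/-- the form defined by a symbol on the whole group -/
lemma BRI_form {χ : S.G → S.G → ZMod 2} (h : Symb S ⊤ χ) :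
    ∃ ω ∈ BRI_A S, ∀ a b : Additive S.G, ω a b = χ a.toMul b.toMul := by
  obtain ⟨h1, h2, h3⟩ := h
  have i1 : ∀ a, χ a 1 = 0 := by
    intro a
    have := h2 a trivial 1 1
    rw [mul_one] at this
    simpa using this.symm
  have i2 : ∀ b, χ 1 b = 0 := by
    intro b
    have := h1 1 trivial 1 trivial b
    rw [mul_one] at this
    simpa using this.symm
  let f (a : Additive S.G) : Dl (Additive S.G) :=
    AddMonoidHom.toZModLinearMap 2
      { toFun := fun b => χ a.toMul b.toMul
        map_zero' := i1 _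
        map_add' := fun b c => h2 _ trivial _ _ }
  have hf : ∀ a b, f a b = χ a.toMul b.toMul := fun a b => rfl
  let ω : Frm (Additive S.G) :=
    AddMonoidHom.toZModLinearMap 2
      { toFun := f
        map_zero' := by
          ext b
          rw [hf]
          exact i2 _
        map_add' := by
          intro a a'
          ext b
          rw [LinearMap.add_apply, hf, hf, hf]
          exact h1 _ trivial _ trivial _ }
  exact ⟨ω, fun a b hab => h3 _ trivial _ hab, fun a b => rfl⟩

end

theorem t_BRI (hPL : S_PL) : S_BRI := by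
  intro S hS hneg hfin hMX
  classical
  letI : Module (ZMod 2) (Additive S.G) := AddCommGroup.zmodModule (n := 2) (by
    intro x
    rw [two_smul]
    exact hS.exp2 x.toMul)
  haveI : Finite (Additive S.G) := hfin
  -- facts on `q`
  have q1 : ∀ a, S.q a 1 = S.zero := by
    intro a
    have := (hS.qs3 a 1 1).1 rfl
    rwa [mul_one] at this
  have qself : ∀ a, S.q a a = S.zero := by
    intro a
    have := hS.qs1 a
    rwa [hneg, one_mul] at this
  have qmul : ∀ a b c, S.q a b = S.zero → S.q a c = S.zero → S.q a (b * c) = S.zero := by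
    intro a b c h1 h2
    exact (hS.qs3 a b c).1 (h1.trans h2.symm)
  have halt : AltFam (BRI_A S) := fun ω hω a => hω a a (qself _)
  -- extension of symbols given by a product
  have hext : ∀ (W : Submodule (ZMod 2) (Additive S.G)) (φ f : Dl (Additive S.G)),
      (∀ w ∈ W, φ w ≠ 0 → ∀ b : Additive S.G, S.q w.toMul b.toMul = S.zero → f b = 0) →
      ∃ ω ∈ BRI_A S, ∀ w ∈ W, ω w = φ w • f := by
    intro W φ f hW
    let W' : Subgroup S.G :=
      { carrier := {x | Additive.ofMul x ∈ W}
        mul_mem' := fun {x y} hx hy => W.add_mem hx hy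
        one_mem' := W.zero_mem
        inv_mem' := fun {x} hx => W.neg_mem hx }
    obtain ⟨χ', hχ, hχ'⟩ := hMX W' (fun x y => φ (Additive.ofMul x) * f (Additive.ofMul y)) (by
      refine ⟨?_, ?_, ?_⟩
      · intro a _ b _ c
        show φ (Additive.ofMul (a * b)) * _ = _
        rw [ofMul_mul, map_add, add_mul]
      · intro a _ b c
        show _ * f (Additive.ofMul (b * c)) = _
        rw [ofMul_mul, map_add, mul_add]
      · intro a ha b hab
        show φ (Additive.ofMul a) * f (Additive.ofMul b) = 0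
        by_cases h0 : φ (Additive.ofMul a) = 0
        · rw [h0, zero_mul]
        · rw [hW _ ha h0 (Additive.ofMul b) hab, mul_zero])
    obtain ⟨ω, hω, hω'⟩ := BRI_form hχ
    refine ⟨ω, hω, fun w hw => ?_⟩
    ext b
    rw [hω', hχ' w.toMul hw]
    rfl
  -- the forms detect the zeros of `q`
  have hdet : ∀ a b : Additive S.G, (∀ ω ∈ BRI_A S, ω a b = 0) →
      S.q a.toMul b.toMul = S.zero := by
    intro a b hab
    by_contra hne
    let K : Submodule (ZMod 2) (Additive S.G) :=
      AddSubgroup.toZModSubmodule 2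
        { carrier := {y : Additive S.G | S.q a.toMul y.toMul = S.zero}
          add_mem' := fun {x y} hx hy => qmul _ _ _ hx hy
          zero_mem' := q1 _
          neg_mem' := fun {x} hx => by
            have : -x = x := by
              rw [neg_eq_iff_add_eq_zero]; exact vadd x
            rw [this]; exact hx }
    have hbK : b ∉ K := hne
    obtain ⟨f, hf1, hf2⟩ := Submodule.exists_le_ker_of_notMem hbK
    have ha0 : a ≠ 0 := by
      rintro rfl
      apply hne
      rw [hS.qs2]
      exact q1 _
    obtain ⟨φ, hφ⟩ := exists_ne_one ha0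
    obtain ⟨ω, hω, hω'⟩ := hext (Submodule.span (ZMod 2) {a}) φ f (by
      intro w hw hφw y hy
      rcases span_one_mem.1 hw with rfl | rfl
      · exact absurd (map_zero φ) hφw
      · exact hf2 hy)
    have h1 := hab ω hω
    rw [hω' a (Submodule.mem_span_singleton_self a), hφ, one_smul] at h1
    exact hf1 h1
  -- hereditary linkage
  have hher : Hered (BRI_A S) := by
    intro X ω hω η hη a c hac
    set U : Submodule (ZMod 2) (Additive S.G) := X.dualCoannihilator with hU
    have hUm : ∀ u, u ∈ U ↔ ∀ g ∈ X, g u = 0 := fun u => Submodule.mem_dualCoannihilator u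
    have kill : ∀ ω ∈ res (BRI_A S) X, ∀ u ∈ U, ω u = 0 := by
      intro ω hω u hu
      ext y
      rw [(halt ω hω.1).symm]
      exact (hUm u).1 hu _ (hω.2 y)
    have kill' : ∀ ω ∈ BRI_A S, (∀ u ∈ U, ω u = 0) → ω ∈ res (BRI_A S) X := by
      intro ω hω h
      refine ⟨hω, fun y => mem_of_coann fun b hb => ?_⟩
      rw [(halt ω hω).symm, h b ((hUm b).2 hb)]
      rfl
    by_cases haU : a ∈ U
    · refine ⟨0, Submodule.zero_mem _, ?_, ?_⟩
      · rw [kill ω hω a haU]; rfl
      · rw [kill ω hω a haU]; rfl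
    by_cases hcU : c ∈ U
    · refine ⟨0, Submodule.zero_mem _, ?_, ?_⟩
      · rw [hac, kill η hη c hcU]; rfl
      · rw [hac, kill η hη c hcU]; rfl
    obtain ⟨φ, hφX, hφa, hφc⟩ : ∃ φ ∈ X, φ a = 1 ∧ φ c = 1 := by
      rw [hUm] at haU hcU
      push Not at haU hcU
      obtain ⟨g, hgX, hg⟩ := haU
      obtain ⟨g', hgX', hg'⟩ := hcU
      have hg1 := z_ne hg
      have hg1' := z_ne hg'
      rcases z01 (g c) with h0 | h0
      · rcases z01 (g' a) with h0' | h0'
        · refine ⟨g + g', X.add_mem hgX hgX', ?_, ?_⟩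
          · rw [LinearMap.add_apply, hg1, h0', add_zero]
          · rw [LinearMap.add_apply, h0, hg1', zero_add]
        · exact ⟨g', hgX', h0', hg1'⟩
      · exact ⟨g, hgX, hg1, h0⟩
    obtain ⟨ζ, hζ, hζ'⟩ := hext (U ⊔ Submodule.span (ZMod 2) {a, c}) φ (ω a) (by
      intro w hw hφw y hy
      obtain ⟨u, hu, v, hv, rfl⟩ := Submodule.mem_sup.1 hw
      have hφu : φ u = 0 := (hUm u).1 hu φ hφX
      rcases span_pair_mem.1 hv with rfl | rfl | rfl | rfl
      · exact absurd (by rw [add_zero, hφu]) hφw
      · have h1 := hω.1 _ _ hy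
        rw [map_add, kill ω hω u hu, zero_add] at h1
        exact h1
      · have h1 := hη.1 _ _ hy
        rw [map_add, kill η hη u hu, zero_add, ← hac] at h1
        exact h1
      · exact absurd (by rw [map_add, map_add, hφu, hφa, hφc, zadd, add_zero]) hφw)
    have ha' : a ∈ U ⊔ Submodule.span (ZMod 2) {a, c} :=
      Submodule.mem_sup_right (Submodule.subset_span (by simp))
    have hc' : c ∈ U ⊔ Submodule.span (ZMod 2) {a, c} :=
      Submodule.mem_sup_right (Submodule.subset_span (by simp))
    refine ⟨ζ, kill' ζ hζ fun u hu => ?_, ?_, ?_⟩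
    · rw [hζ' u (Submodule.mem_sup_left hu), (hUm u).1 hu φ hφX, zero_smul]
    · rw [hζ' a ha', hφa, one_smul]
    · rw [hζ' c hc', hφc, one_smul]
  -- equality of quaternions
  have heq : ∀ a b c d : Additive S.G, (∀ ω ∈ BRI_A S, ω a b = ω c d) ↔
      S.q a.toMul b.toMul = S.q c.toMul d.toMul := by
    intro a b c d
    constructor
    · intro h
      obtain ⟨z, h1, h2, h3⟩ := hPL (Additive S.G) (BRI_A S) halt hher.linked a c b d h
      have e1 := (hS.qs3 a.toMul b.toMul z.toMul).2 (hdet a (b + z) h1)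
      have e2 := (hS.qs3 c.toMul d.toMul z.toMul).2 (hdet c (d + z) h2)
      have e3 := hdet (a + c) z h3
      rw [hS.qs2] at e3
      have e4 := (hS.qs3 z.toMul a.toMul c.toMul).2 e3
      rw [e1, e2, hS.qs2 a.toMul, hS.qs2 c.toMul, e4]
    · intro h ω hω
      obtain ⟨x, hx1, hx2⟩ := hS.qs4 _ _ _ _ h
      have e1 : ω a (b + Additive.ofMul x) = 0 := hω _ _ ((hS.qs3 _ _ _).1 hx1)
      have e2 : ω c (d + Additive.ofMul x) = 0 := hω _ _ ((hS.qs3 _ _ _).1 hx2)
      have e3 : S.q x a.toMul = S.q x c.toMul := by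
        rw [hS.qs2 x, hS.qs2 x, ← hx1, ← hx2, h]
      have e4 : ω (Additive.ofMul x) (a + c) = 0 := hω _ _ ((hS.qs3 _ _ _).1 e3)
      rw [map_add] at e1 e2 e4
      have f1 := Pool.Agent.W622.ETC.add_eq_zero'.1 e1
      have f2 := Pool.Agent.W622.ETC.add_eq_zero'.1 e2
      have f4 := Pool.Agent.W622.ETC.add_eq_zero'.1 e4
      rw [f1, f2, (halt ω hω).symm, f4, (halt ω hω).symm]
  refine ⟨Additive S.G, inferInstance, inferInstance, inferInstance, BRI_A S, halt, hher,
    MulEquiv.multiplicativeAdditive S.G, ?_, ?_⟩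
  · rw [hneg]; exact map_one _
  · intro a b c d
    have h1 : ((QD (BRI_A S)).q a b = (QD (BRI_A S)).q c d) ↔
        ∀ ω ∈ BRI_A S, ω a.toAdd b.toAdd = ω c.toAdd d.toAdd := by
      constructor
      · intro h ω hω
        exact congrFun h ⟨ω, hω⟩
      · intro h
        funext ω
        exact h ω.1 ω.2
    rw [h1]
    exact heq a.toAdd b.toAdd c.toAdd d.toAdd

end Pool.Agent.W349.ELT
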