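import Pool.Agent.W622.ETC.Stm

/-!
Project ELT (helper622), part NGF: in case B there are no bad blocks.
-/

set_option autoImplicit false

namespace Pool.Agent.W349.ELT

open Pool.Agent.W622.ETC Module

section
variable {V : Type} [AddCommGroup V] [Module (ZMod 2) V] [Finite V]

lemma NGF_sum (hIDIM : S_IDIM) (s : Finset (DSub V)) (hs : sSupIndep (s : Set (DSub V)))
    (Y : DSub V) (hY : ∀ X ∈ s, X ≤ Y) : ∑ X ∈ s, finrank (ZMod 2) X ≤ finrank (ZMod 2) Y := by
  rw [← hIDIM V s hs]
  exact Submodule.finrank_mono (sSup_le fun X hX => hY X (by simpa using hX))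

/-- the main step -/
lemma NGF_key (hIDIM : S_IDIM) (hBNT : S_BNT) (hOM : S_OM) (hCB1 : S_CB1) (hNGC : S_NGC)
    (hBETA : S_BETA) {A : Fam V} (hA : CB A) {F : DSub V} (hF : F ∈ BB A) :
    finrank (ZMod 2) F + 2 = finrank (ZMod 2) V ∧
      ∃ H ∈ BB A, finrank (ZMod 2) H + 4 ≤ finrank (ZMod 2) V := by
  classical
  set n := finrank (ZMod 2) V with hn
  -- dimensions of blocks
  have hd : ∀ X, Block A X → Even (finrank (ZMod 2) X) ∧ 2 ≤ finrank (ZMod 2) X := by
    intro X hX
    have hl : LocBlock A X := by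
      rcases hX with h | h
      · exact absurd h.1 (hA.nc X)
      · exact h
    exact (hOM V A X hA.mc.alt hl).2.2.2.2
  -- the blocks killed by `b`
  have hBL : ∀ b : V, b ≠ 0 → ∀ s : Finset (DSub V), (s : Set (DSub V)) ⊆ BL A b →
      ∑ X ∈ s, finrank (ZMod 2) X + 2 ≤ n := by
    intro b hb s hs
    obtain ⟨h1, _, h3⟩ := hCB1 V A b hA hb
    have h4 := NGF_sum hIDIM s (h1.1.mono hs) (sSup (BL A b)) fun X hX => le_sSup (hs hX)
    omega
  have hcard : ∀ b : V, b ≠ 0 → 2 * (BL A b).ncard + 2 ≤ n := by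
    intro b hb
    have h1 := hBL b hb (Set.toFinite (BL A b)).toFinset (by simp)
    have h2 : 2 * (BL A b).ncard ≤ ∑ X ∈ (Set.toFinite (BL A b)).toFinset, finrank (ZMod 2) X := by
      rw [Set.ncard_eq_toFinset_card (BL A b) (Set.toFinite _), mul_comm, ← smul_eq_mul]
      refine Finset.card_nsmul_le_sum _ _ _ fun X hX => ?_
      have hX' : X ∈ BL A b := by simpa using hX
      exact (hd X hX'.1).2
    omega
  have hbad : ∀ F' ∈ BB A, n + 2 ≤ 2 * finrank (ZMod 2) F' := by
    intro F' hF'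
    obtain ⟨c', hc', h1⟩ := hNGC V A F' hA hF'
    have := hcard c' hc'
    omega
  -- `g ≥ 2`
  have hFn : finrank (ZMod 2) F + 2 ≤ n := by
    have h1 : finrank (ZMod 2) F < n := by
      have := Submodule.finrank_lt (hBNT V A F hA.mc hF.1).1
      rwa [finrank_Dl] at this
    obtain ⟨k, hk⟩ := (hd F hF.1).1
    obtain ⟨m, hm⟩ := hA.ev
    omega
  obtain ⟨c, hc, hnc⟩ := hNGC V A F hA hF
  set G : Set (DSub V) := {X | X ∈ BL A c ∧ Good A X} with hG
  have hGi : sSupIndep (insert F G) := by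
    by_contra hne
    exact hBETA V A F c G hA hF hc hnc (fun X hX => ⟨hX.1.1, hX.2⟩) (fun X hX => hX.1) hne
  set GF : Finset (DSub V) := (Set.toFinite G).toFinset with hGF
  have hGFc : (GF : Set (DSub V)) = G := by simp [hGF]
  have hGm : ∀ X, X ∈ GF ↔ X ∈ G := by intro X; simp [hGF]
  have hFG : F ∉ GF := by
    rw [hGm]
    intro h
    exact hF.2 h.2
  have s1 : finrank (ZMod 2) F + ∑ X ∈ GF, finrank (ZMod 2) X ≤ n := by
    have h1 := NGF_sum hIDIM (insert F GF) (by rw [Finset.coe_insert, hGFc]; exact hGi) ⊤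
      (fun X _ => le_top)
    rw [Finset.sum_insert hFG, finrank_top, finrank_Dl] at h1
    exact h1
  have s2 : 2 * GF.card ≤ ∑ X ∈ GF, finrank (ZMod 2) X := by
    rw [mul_comm, ← smul_eq_mul]
    refine Finset.card_nsmul_le_sum _ _ _ fun X hX => ?_
    exact (hd X ((hGm X).1 hX).1.1).2
  by_cases hB : ∃ H ∈ BL A c, ¬ Good A H
  · obtain ⟨H, hH, hHb⟩ := hB
    have hHG : H ∉ GF := by
      rw [hGm]; exact fun h => hHb h.2
    have hBLe : BL A c = ((insert H GF : Finset (DSub V)) : Set (DSub V)) := by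
      ext X
      rw [Finset.coe_insert, hGFc]
      constructor
      · intro hX
        by_cases hg : Good A X
        · exact Or.inr ⟨hX, hg⟩
        · left
          by_contra hne
          have h1 := hBL c hc {H, X} (by
            intro Y hY
            simp only [Finset.coe_insert, Finset.coe_singleton, Set.mem_insert_iff,
              Set.mem_singleton_iff] at hY
            rcases hY with rfl | rfl
            · exact hH
            · exact hX)
          rw [Finset.sum_pair (Ne.symm hne)] at h1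
          have h2 := hbad H ⟨hH.1, hHb⟩
          have h3 := hbad X ⟨hX.1, hg⟩
          omega
      · rintro (rfl | hX)
        · exact hH
        · exact hX.1
    have s3 : (BL A c).ncard = GF.card + 1 := by
      rw [hBLe, Set.ncard_coe_finset, Finset.card_insert_of_notMem hHG]
    have s4 := hBL c hc (insert H GF) hBLe.ge
    rw [Finset.sum_insert hHG] at s4
    refine ⟨by omega, H, ⟨hH.1, hHb⟩, by omega⟩
  · push Not at hB
    exfalso
    have hBLe : BL A c = (GF : Set (DSub V)) := by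
      rw [hGFc]
      ext X
      exact ⟨fun hX => ⟨hX, hB X hX⟩, fun hX => hX.1⟩
    have s3 : (BL A c).ncard = GF.card := by
      rw [hBLe, Set.ncard_coe_finset]
    omega

end

theorem t_NGF (hIDIM : S_IDIM) (hBNT : S_BNT) (hOM : S_OM) (hCB1 : S_CB1) (hNGC : S_NGC)
    (hBETA : S_BETA) : S_NGF := by
  intro V _ _ _ A hA F hF
  obtain ⟨_, H, hH, hH4⟩ := NGF_key hIDIM hBNT hOM hCB1 hNGC hBETA hA hF
  obtain ⟨h2, _⟩ := NGF_key hIDIM hBNT hOM hCB1 hNGC hBETA hA hH
  omega

end Pool.Agent.W349.ELT
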